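import Pool.Agent.Helper84.OB.Stmts

set_option autoImplicit false

universe u

open Set Pool.Agent.Helper84.BT Pool.Agent.Helper84.OB
open scoped Matroid

namespace Pool.Agent.Helper3.OB

theorem ncard_three {ι : Type*} [Finite ι] (P Q R : Set ι) :
    (P ∩ Q ∩ R).ncard + (P ∪ Q).ncard + (P ∪ R).ncard + (Q ∪ R).ncard =
      P.ncard + Q.ncard + R.ncard + (P ∪ Q ∪ R).ncard := by
  have h1 := Set.ncard_union_add_ncard_inter P Q (Set.toFinite _) (Set.toFinite _)
  have h2 := Set.ncard_union_add_ncard_inter P R (Set.toFinite _) (Set.toFinite _)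
  have h3 := Set.ncard_union_add_ncard_inter Q R (Set.toFinite _) (Set.toFinite _)
  have h4 := Set.ncard_union_add_ncard_inter (P ∪ Q) R (Set.toFinite _) (Set.toFinite _)
  have h5 := Set.ncard_union_add_ncard_inter (P ∩ R) (Q ∩ R) (Set.toFinite _) (Set.toFinite _)
  have e1 : (P ∪ Q) ∩ R = (P ∩ R) ∪ (Q ∩ R) := Set.union_inter_distrib_right _ _ _
  have e2 : P ∩ R ∩ (Q ∩ R) = P ∩ Q ∩ R := by
    ext x; simp only [mem_inter_iff]; tauto
  rw [e1] at h4
  rw [e2] at h5
  omega

theorem st_MI : ST_MI.{u} := by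
  intro α _ M hM A B Y hA hB hY
  obtain ⟨m, F, hF⟩ := hM
  have a1 := nb_ncard_of_cyclic hF hA
  have a2 := nb_ncard_of_cyclic hF hB
  have a3 := nb_ncard_of_cyclic hF hY
  have a4 := nb_ncard_of_cyclic hF (hA.union hB)
  have a5 := nb_ncard_of_cyclic hF (hA.union hY)
  have a6 := nb_ncard_of_cyclic hF (hB.union hY)
  have a7 := nb_ncard_of_cyclic hF ((hA.union hB).union hY)
  rw [nb_union] at a4 a5 a6
  rw [nb_union, nb_union] at a7
  have a8 : rk M (A ∩ B ∩ Y) ≤ (nb F A ∩ nb F B ∩ nb F Y).ncard := by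
    refine (rk_le_nb hF ((inter_subset_right).trans hY.subset_ground)).trans ?_
    refine Set.ncard_le_ncard ?_ (Set.toFinite _)
    refine subset_inter (subset_inter (nb_mono F ?_) (nb_mono F ?_)) (nb_mono F inter_subset_right)
    · exact inter_subset_left.trans inter_subset_left
    · exact inter_subset_left.trans inter_subset_right
  have h := ncard_three (nb F A) (nb F B) (nb F Y)
  omega

end Pool.Agent.Helper3.OB
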